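import Pool.Agent.Run7.h386.PW.Iface

/-! Piece COM of project PW: adding the rest. -/

set_option autoImplicit false

namespace Pool.Agent.Run7.h886.PW

open Finset Pool.Agent.Run7.h386.DE Pool.Agent.Run7.h386.DL Pool.Agent.Run7.h386.PW
open scoped Classical

/-- a decomposition into two parts -/
theorem NE_two {α : ℝ} (hα : 0 ≤ α) (t : ℤ) {W W' : Finset (ℤ × ℤ)} (h : W' ⊆ W) :
    NE α t W ≤ 3 ^ α * (NE α t W' + NE α t (W \ W')) := by
  have h1 := NE_sum_le hα (t := t) (W := W) (Finset.univ : Finset (Fin 2)) ![W', W \ W']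
    (fun y hy => by
      by_cases hy' : y ∈ W'
      · exact ⟨0, Finset.mem_univ _, hy'⟩
      · exact ⟨1, Finset.mem_univ _, by simp [hy, hy']⟩)
    (fun k _ => by
      fin_cases k
      · exact h
      · exact Finset.sdiff_subset)
  rw [Fin.sum_univ_two] at h1
  simp only [Finset.card_univ, Fintype.card_fin, Matrix.cons_val_zero, Matrix.cons_val_one] at h1
  refine h1.trans (mul_le_mul_of_nonneg_right ?_ (add_nonneg (NE_nonneg _ _ _) (NE_nonneg _ _ _)))
  exact Real.rpow_le_rpow (by norm_num) (by norm_num) hα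

theorem t_COM (hU : S_USE) : S_COM := by
  intro α δ K M T hI hα hδ hK u hu W W' hW hM g err hg herr h4 h1
  obtain ⟨N, hN⟩ : ∃ N : ℝ, N = T.card * K * (W.card : ℝ) ^ (α * δ) := ⟨_, rfl⟩
  have hN0 : 0 ≤ N := by rw [hN]; positivity
  rw [← hN] at h1 ⊢
  have h3 : (0 : ℝ) ≤ 3 ^ α := Real.rpow_nonneg (by norm_num) _
  have hc : ((W \ W').card : ℝ) = W.card - W'.card := by
    rw [Finset.card_sdiff_of_subset hW, Nat.cast_sub (Finset.card_le_card hW)]
  have hW'0 : (0 : ℝ) ≤ W'.card := Nat.cast_nonneg _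
  have h5 : TW α T u (W \ W') ≤ N * (W.card - W'.card) := by
    have := hU α δ K M T hI hα hδ hK u hu (W \ W') W.card (Nat.cast_nonneg _)
      (by rw [hc]; linarith) hM
    rw [hc, ← hN] at this
    exact this
  have h6 : TW α T u W ≤ 3 ^ α * (TW α T u W' + TW α T u (W \ W')) := by
    unfold TW
    rw [← Finset.sum_add_distrib, Finset.mul_sum]
    exact Finset.sum_le_sum fun t _ => NE_two hα _ hW
  refine h6.trans (mul_le_mul_of_nonneg_left ?_ h3)
  have h7 : 0 ≤ (1 - g) * N := mul_nonneg (by linarith) hN0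
  have h8 : (W.card : ℝ) ≤ 4 * W'.card := by exact_mod_cast h4
  have h9 := mul_le_mul_of_nonneg_left h8 h7
  have h10 := mul_nonneg h7 hW'0
  nlinarith

end Pool.Agent.Run7.h886.PW
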