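import Pool.Agent.Run7.h386.PW.Iface

/-! Piece GAL of project PW: the gain from a label. -/

set_option autoImplicit false

namespace Pool.Agent.Run7.h886.PW

open Finset Pool.Agent.Run7.h386.DE Pool.Agent.Run7.h386.DL Pool.Agent.Run7.h386.PW
open scoped Classical

theorem t_GAL (hU : S_USE) : S_GAL := by
  intro α δ K M T hI hα hδ hK u hu W W' hW hM lab rep R C A hA hR hrep hlab hsmall
  have hA0 : (0 : ℝ) < A := by exact_mod_cast hA
  have hn : 0 ≤ (W.card : ℝ) := Nat.cast_nonneg _
  obtain ⟨m, hm⟩ : ∃ m : ℝ, m = (W.card : ℝ) / A := ⟨_, rfl⟩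
  have hm0 : 0 ≤ m := by rw [hm]; positivity
  have hmM : m ≤ M := by
    rw [hm]
    exact le_trans (div_le_self hn (by exact_mod_cast hA)) hM
  set L := W'.image lab with hL
  -- one part
  have h1 : ∀ r ∈ R, ∀ k ∈ L,
      TW α T u ((W'.filter fun w => rep w = r).filter fun w => lab w = k) ≤
        T.card * K * m ^ (α * δ) *
          (((W'.filter fun w => rep w = r).filter fun w => lab w = k).card : ℝ) := by
    intro r _ k hk
    refine hU α δ K M T hI hα hδ hK u hu _ m hm0 ?_ hmM
    rw [hm, le_div_iff₀ hA0]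
    obtain ⟨w, hw, hwk⟩ := Finset.mem_image.1 hk
    have h2 := hsmall w hw
    have h3 : ((W'.filter fun w => rep w = r).filter fun w => lab w = k).card ≤
        (W'.filter fun w' => lab w' = lab w).card := by
      refine Finset.card_le_card ?_
      intro v hv
      obtain ⟨hv1, hv2⟩ := Finset.mem_filter.1 hv
      exact Finset.mem_filter.2 ⟨(Finset.mem_filter.1 hv1).1, hv2.trans hwk.symm⟩
    have h4 : A * ((W'.filter fun w => rep w = r).filter fun w => lab w = k).card ≤ W.card :=
      (Nat.mul_le_mul_left A h3).trans h2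
    rw [mul_comm]
    exact_mod_cast h4
  have h2 : ∀ t ∈ T, NE α (u * (t : ℤ)) W' ≤ (C : ℝ) ^ α * ∑ r ∈ R, ∑ k ∈ L,
      NE α (u * (t : ℤ)) ((W'.filter fun w => rep w = r).filter fun w => lab w = k) := by
    intro t ht
    refine (NE_sum_le hα R (fun r => W'.filter fun w => rep w = r)
      (fun y hy => ⟨rep y, hrep y hy, Finset.mem_filter.2 ⟨hy, rfl⟩⟩)
      (fun _ _ => Finset.filter_subset _ _)).trans ?_
    have h3 : ∀ r ∈ R, NE α (u * (t : ℤ)) (W'.filter fun w => rep w = r) = ∑ k ∈ L,
        NE α (u * (t : ℤ)) ((W'.filter fun w => rep w = r).filter fun w => lab w = k) := by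
      intro r _
      refine (NE_label lab L (fun y hy => ?_) (fun y hy y' hy' h => ?_)).trans
        (Finset.sum_congr rfl fun k _ => by congr!)
      · exact Finset.mem_image_of_mem _ (Finset.mem_filter.1 hy).1
      · obtain ⟨a1, a2⟩ := Finset.mem_filter.1 hy
        obtain ⟨b1, b2⟩ := Finset.mem_filter.1 hy'
        exact hlab t ht y a1 y' b1 (a2.trans b2.symm) h
    rw [Finset.sum_congr rfl h3]
    refine mul_le_mul_of_nonneg_right (Real.rpow_le_rpow (Nat.cast_nonneg _)
      (by exact_mod_cast hR) hα) ?_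
    exact Finset.sum_nonneg fun _ _ => Finset.sum_nonneg fun _ _ => NE_nonneg _ _ _
  have hcard : ∑ r ∈ R, ∑ k ∈ L,
      (((W'.filter fun w => rep w = r).filter fun w => lab w = k).card : ℝ) = W'.card := by
    have e1 : ∀ r ∈ R, ∑ k ∈ L,
        (((W'.filter fun w => rep w = r).filter fun w => lab w = k).card : ℝ) =
        ((W'.filter fun w => rep w = r).card : ℝ) := by
      intro r _
      have := Finset.card_eq_sum_card_fiberwise (f := lab) (s := W'.filter fun w => rep w = r)
        (t := L) (fun y hy => Finset.mem_image_of_mem _ (Finset.mem_filter.1 hy).1)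
      rw [this]
      push_cast
      rfl
    rw [Finset.sum_congr rfl e1]
    have := Finset.card_eq_sum_card_fiberwise (f := rep) (s := W') (t := R)
      (fun y hy => hrep y hy)
    rw [this]
    push_cast
    rfl
  calc TW α T u W' ≤ ∑ t ∈ T, (C : ℝ) ^ α * ∑ r ∈ R, ∑ k ∈ L,
        NE α (u * (t : ℤ)) ((W'.filter fun w => rep w = r).filter fun w => lab w = k) :=
        Finset.sum_le_sum h2
    _ = (C : ℝ) ^ α * ∑ r ∈ R, ∑ k ∈ L,
        TW α T u ((W'.filter fun w => rep w = r).filter fun w => lab w = k) := by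
        rw [← Finset.mul_sum, Finset.sum_comm]
        congr 1
        refine Finset.sum_congr rfl fun r _ => ?_
        rw [Finset.sum_comm]
        rfl
    _ ≤ (C : ℝ) ^ α * ∑ r ∈ R, ∑ k ∈ L, T.card * K * m ^ (α * δ) *
          (((W'.filter fun w => rep w = r).filter fun w => lab w = k).card : ℝ) := by
        refine mul_le_mul_of_nonneg_left ?_ (Real.rpow_nonneg (Nat.cast_nonneg _) _)
        exact Finset.sum_le_sum fun r hr => Finset.sum_le_sum fun k hk => h1 r hr k hk
    _ = (C : ℝ) ^ α * (T.card * K * m ^ (α * δ) * W'.card) := by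
        rw [← hcard]
        simp only [Finset.mul_sum]
    _ = _ := by
        rw [hm, div_rpow_mul hn]
        ring

end Pool.Agent.Run7.h886.PW
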